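import Pool.Agent.U331.CG.Fam

/-!
# The `H`-moments of the class groups of quadratic fields over sums of independent random integers (words of codes at arbitrary positions, for example)

From Mathlib: `𝓞 K`, `ClassGroup`, `NumberField.discr`: the ring of integers, the class group and the discriminant;
`CommGroup.primaryComponent G p`: the elements of `p`-power order.

Method. New here: the exponential sums over such random integers. If the product of a frequency with `R b ^ j` is far from
the integers, then so is its product with one of the differences `x_t - y_t`, and the characteristic function of the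
summand number `n_t` loses a constant factor at this frequency. So the exponential sum decays exponentially in the number
of the positions at which the frequency, multiplied with `R`, is far from the integers (`Pool.Agent.U331.SU`,
`Pool.Agent.U331.CG`). The passage from such a decay to the
class groups is from the starting library (`Pool.Agent.N794.CG`, generic in the family; `Pool.Agent.H491R4.HM`,
`Pool.Agent.R459.Tor` and `Pool.Agent.R345.HM`): for almost all members `v` many small primes split in `ℚ(√(j v))`, with a high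
power saving in the probability of the exceptions at each scale; then the argument of Ellenberg and Venkatesh, and a count of
surjections.
-/

set_option autoImplicit false

namespace Pool.Agent.Results.MP_0f260b_nt.IndependentSumMoments

open Finset NumberField Filter

/-- `p` is the distribution of a sum of `N` independent random integers: the summand number `n` takes the values `x ∈ S n` with
the probabilities `π n x`, and the values of the sum are `< b ^ k`. For all but at most `s` of the positions `j < k` the number
`R b ^ j` is a combination `∑ t, c_t (x_t - y_t)`, `t < s`, with integers `|c_t| ≤ s`, where `x_t` and `y_t` are values which one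
of the summands, the one with the number `n_t`, takes with a probability of at least `η`; and every summand is used in this
way for at most `s` positions. (Examples: independent random digits, each from an arbitrary set with at least two elements;
palindromes with independent pairs of opposite digits, `R = b ^ 2 - 1`; the integers whose digits in arbitrary blocks of
boundedly many positions are independent random words of arbitrary codes which are not contained in a hyperplane, no single
digit of which needs to be variable; sums of several integers of this kind.) -/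
structure Sums (b s R : ℕ) (η : ℝ) (k : ℕ) (p : ℕ → ℝ) : Prop where
  ex : ∃ (N : ℕ) (S : Fin N → Finset ℕ) (π : Fin N → ℕ → ℝ),
    (∀ n, (∀ x, 0 ≤ π n x) ∧ ∑ x ∈ S n, π n x = 1) ∧
    (∀ x ∈ Fintype.piFinset S, ∑ n, x n < b ^ k) ∧
    (∀ v, p v = ∑ x ∈ (Fintype.piFinset S).filter (fun x => ∑ n, x n = v), ∏ n, π n (x n)) ∧
    ∃ (J : Finset ℕ) (n : ℕ → Fin s → Fin N) (c : ℕ → Fin s → ℤ) (x y : ℕ → Fin s → ℕ),
      (J ⊆ range k ∧ k ≤ J.card + s) ∧
      (∀ j ∈ J, ((R * b ^ j : ℕ) : ℤ) = ∑ t, c j t * ((x j t : ℤ) - y j t)) ∧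
      (∀ j ∈ J, ∀ t, |c j t| ≤ s ∧ (x j t ∈ S (n j t) ∧ y j t ∈ S (n j t)) ∧
        η ≤ π (n j t) (x j t) ∧ η ≤ π (n j t) (y j t)) ∧
      ∀ m : Fin N, (J.filter fun j => ∃ t, n j t = m).card ≤ s

lemma conv {b s R : ℕ} {η : ℝ} {k : ℕ} {p : ℕ → ℝ} (h : Sums b s R η k p) : Pool.Agent.U331.SU.Sums b s R η k p := ⟨h.ex⟩

/-- `#Sur(Cl(K)[p^∞], H)` for the group `H`, the product of the cyclic groups of orders `p ^ e i`. -/
noncomputable def numSur (K : Type) [Field K] [NumberField K] (p : ℕ) {r : ℕ} (e : Fin r → ℕ) : ℕ :=
  Nat.card {φ : CommGroup.primaryComponent (ClassGroup (𝓞 K)) p →* (∀ i : Fin r, Multiplicative (ZMod (p ^ e i))) //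
    Function.Surjective φ}

open Classical in
/-- Let `b ≥ 2`, `s`, `R ≥ 1`, `η > 0` and `r ≥ 1` be fixed. There is `δ > 0` such that for `κ ≠ 0` and `U`, `V` there
are `B`, `k₀` such that the following holds for all `k ≥ k₀`, all probabilities `p` with `Sums b s R η k p`,
all `c`, all integers `j ≠ 0` with `|j| ≤ k ^ U`, all primes `l` and all `m` with `l ^ m ≤ k ^ U`, all groups `H` which are
products of `r` cyclic groups of orders `l ^ e i` with `e i ≤ m`, and all `Y ≥ 1`.

Let `K_n = ℚ(√(j n))` be quadratic fields with discriminant of absolute value at most `Y`, for the integers `n` in a set `S`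
of integers of absolute value at most `b ^ (V k)`. If `v` is random with the distribution `p` then the expectation of the
number of the surjective homomorphisms from the `l`-part of the class group of `K_n`, `n = c + κ v`, onto `H` (with `0` if
`n` is not in `S`) is at most `(k ^ B Y ^ (1 / 2) max (Y ^ (-1 / (2 l ^ m)), b ^ (- δ k))) ^ r`. -/
theorem result (b : ℕ) (hb : 2 ≤ b) (s R : ℕ) (hR : 1 ≤ R) (η : ℝ) (hη0 : 0 < η) (r : ℕ) (hr : 1 ≤ r) :
    ∃ δ : ℝ, 0 < δ ∧ ∀ κ : ℤ, κ ≠ 0 → ∀ U V : ℕ, ∃ B k₀ : ℕ, ∀ k : ℕ, k₀ ≤ k → ∀ p : ℕ → ℝ, Sums b s R η k p →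
    ∀ c j : ℤ, j ≠ 0 → |j| ≤ (k : ℤ) ^ U → ∀ (l m : ℕ) (e : Fin r → ℕ), l.Prime → l ^ m ≤ k ^ U → (∀ i, e i ≤ m) →
    ∀ Y : ℝ, 1 ≤ Y →
    ∀ (S : Set ℤ) (K : ℤ → Type) [∀ n, Field (K n)] [∀ n, NumberField (K n)],
    (∀ n ∈ S, |n| ≤ (b : ℤ) ^ (V * k) ∧ Module.finrank ℚ (K n) = 2 ∧ |(discr (K n) : ℝ)| ≤ Y ∧
      ∃ α : K n, IntermediateField.adjoin ℚ {α} = ⊤ ∧ α ^ 2 = ((j * n : ℤ) : K n)) →
    ∑ v ∈ range (b ^ k), p v * (if c + κ * v ∈ S then (numSur (K (c + κ * v)) l e : ℝ) else 0) ≤
      ((k : ℝ) ^ B * (√Y * max (Y ^ (-(1 / (2 * (l : ℝ) ^ m)))) ((b : ℝ) ^ (-(δ * k))))) ^ r := by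
  obtain ⟨δ, hδ, H⟩ := Pool.Agent.U331.CG.sur_cls b (b.factorial * R) 0 hb
    (Nat.mul_pos (Nat.factorial_pos _) hR) (Pool.Agent.U331.SU.Sums b s R η) (fun _ _ h => Pool.Agent.U331.SU.sums_nonneg h) (fun _ _ h => Pool.Agent.U331.SU.sums_one h) (Pool.Agent.U331.CG.sums_dom b s R hb hR η hη0) r hr
  refine ⟨δ, hδ, fun κ hκ U V => ?_⟩
  obtain ⟨B, k₀, J⟩ := H κ hκ U V
  exact ⟨B, k₀, fun k hk p hp => J k hk p (conv hp)⟩

end Pool.Agent.Results.MP_0f260b_nt.IndependentSumMoments
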