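import Pool.Agent.U331.CG.Fam

/-!
# The `H`-moments of the class groups of quadratic fields over random integers whose pairs of opposite digits can be exchanged (palindromes, for example)

From Mathlib: `𝓞 K`, `ClassGroup`, `NumberField.discr`: the ring of integers, the class group and the discriminant;
`CommGroup.primaryComponent G p`: the elements of `p`-power order.

Method. New here: the exponential sums over such random integers. An exchange of a pair of opposite digits changes `v` by
`P b ^ (k - 1 - i) + Q b ^ i` with `P, Q ≠ 0`; if the products of a frequency with these numbers are close to integers for two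
neighbouring pairs, then they determine the products with `(b ^ 4)! b ^ i` and `(b ^ 4)! b ^ (k - 2 - i)` modulo `1`. So the
exponential sum decays exponentially in the number of the positions at which the frequency, multiplied with `(b ^ 4)!`, is
far from the integers (`Pool.Agent.U331.MW`), with the factor `k ^ T`, which disappears after a mixture with the uniform
distribution (`Pool.Agent.U331.CG`). The passage from such a decay to the
class groups is from the starting library (`Pool.Agent.N794.CG`, generic in the family; `Pool.Agent.H491R4.HM`,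
`Pool.Agent.R459.Tor` and `Pool.Agent.R345.HM`): for almost all members `v` many small primes split in `ℚ(√(j v))`, with a high
power saving in the probability of the exceptions at each scale; then the argument of Ellenberg and Venkatesh, and a count of
surjections.
-/

set_option autoImplicit false

namespace Pool.Agent.Results.MP_0f260b_nt.MirrorMoments

open Finset NumberField Filter

/-- The integer whose digits in base `b` are the `i` digits of `u < b ^ i`, the `m` digits of `w < b ^ m` and the `i` digits of
`u' < b ^ i`, one after the other, from the most significant to the least significant one. -/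
def frame (b m i u u' w : ℕ) : ℕ := u * b ^ (m + i) + (w * b ^ i + u')

/-- The probability, for the distribution `μ`, that the word of `m + 2 i` digits begins with the `i` digits of `u` and ends with
the `i` digits of `u'`. -/
noncomputable def outer (b : ℕ) (μ : ℕ → ℝ) (m i u u' : ℕ) : ℝ := ∑ w ∈ range (b ^ m), μ (frame b m i u u' w)

/-- `p` is a probability on the words of `k` digits in base `b`, read as integers `v < b ^ k`. There is another probability
`μ` with `p ≤ k ^ T μ` such that, whatever the first `i` digits `u` and the last `i` digits `u'` are (`m + 2 (i + 1) = k`), two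
different pairs `(a, a')` and `(c, c')`, `a ≠ c`, `a' ≠ c'`, of the next digit from the left and the next digit from the right
can be exchanged: `p (u a w a' u') = r p (u c w c' u')` for all the words `w` of `m` digits, with a factor `r` between `η` and
`1 / η` which does not depend on `w`; and given `u` and `u'`, each of the two pairs comes next with a probability of at least
`η` in the distribution `μ`. (No digit alone needs to be exchangeable. Example: the uniform distribution on the palindromic
words, `T = 0`, `μ = p`, `η = 1 / b`, `r = 1`.) -/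
structure Mirror (b : ℕ) (η : ℝ) (T k : ℕ) (p : ℕ → ℝ) : Prop where
  nonneg : ∀ v, 0 ≤ p v
  sum : ∑ v ∈ range (b ^ k), p v = 1
  dominated : ∃ μ : ℕ → ℝ, (∀ v, 0 ≤ μ v) ∧ ∑ v ∈ range (b ^ k), μ v = 1 ∧ (∀ v < b ^ k, p v ≤ (k : ℝ) ^ T * μ v) ∧
    ∀ i m u u' : ℕ, m + 2 * (i + 1) = k → u < b ^ i → u' < b ^ i → ∃ (a a' c c' : ℕ) (r : ℝ),
      (a < b ∧ a' < b ∧ c < b ∧ c' < b) ∧ a ≠ c ∧ a' ≠ c' ∧ η ≤ r ∧ η * r ≤ 1 ∧
      (∀ w < b ^ m, p (frame b m (i + 1) (b * u + a) (a' * b ^ i + u') w) =
        r * p (frame b m (i + 1) (b * u + c) (c' * b ^ i + u') w)) ∧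
      η * outer b μ (m + 2) i u u' ≤ outer b μ m (i + 1) (b * u + a) (a' * b ^ i + u') ∧
      η * outer b μ (m + 2) i u u' ≤ outer b μ m (i + 1) (b * u + c) (c' * b ^ i + u')

lemma conv {b : ℕ} {η : ℝ} {T k : ℕ} {p : ℕ → ℝ} (h : Mirror b η T k p) : Pool.Agent.U331.MW.Mirror b η T k p :=
  ⟨h.nonneg, h.sum, h.dominated⟩

/-- `#Sur(Cl(K)[p^∞], H)` for the group `H`, the product of the cyclic groups of orders `p ^ e i`. -/
noncomputable def numSur (K : Type) [Field K] [NumberField K] (p : ℕ) {r : ℕ} (e : Fin r → ℕ) : ℕ :=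
  Nat.card {φ : CommGroup.primaryComponent (ClassGroup (𝓞 K)) p →* (∀ i : Fin r, Multiplicative (ZMod (p ^ e i))) //
    Function.Surjective φ}

open Classical in
/-- Let `b ≥ 2`, `0 < η ≤ 1`, `T` and `r ≥ 1` be fixed. There is `δ > 0` such that for `κ ≠ 0` and `U`, `V` there
are `B`, `k₀` such that the following holds for all `k ≥ k₀`, all probabilities `p` with `Mirror b η T k p`,
all `c`, all integers `j ≠ 0` with `|j| ≤ k ^ U`, all primes `l` and all `m` with `l ^ m ≤ k ^ U`, all groups `H` which are
products of `r` cyclic groups of orders `l ^ e i` with `e i ≤ m`, and all `Y ≥ 1`.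

Let `K_n = ℚ(√(j n))` be quadratic fields with discriminant of absolute value at most `Y`, for the integers `n` in a set `S`
of integers of absolute value at most `b ^ (V k)`. If `v` is random with the distribution `p` then the expectation of the
number of the surjective homomorphisms from the `l`-part of the class group of `K_n`, `n = c + κ v`, onto `H` (with `0` if
`n` is not in `S`) is at most `(k ^ B Y ^ (1 / 2) max (Y ^ (-1 / (2 l ^ m)), b ^ (- δ k))) ^ r`. -/
theorem result (b : ℕ) (hb : 2 ≤ b) (η : ℝ) (hη0 : 0 < η) (hη1 : η ≤ 1) (T : ℕ) (r : ℕ) (hr : 1 ≤ r) :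
    ∃ δ : ℝ, 0 < δ ∧ ∀ κ : ℤ, κ ≠ 0 → ∀ U V : ℕ, ∃ B k₀ : ℕ, ∀ k : ℕ, k₀ ≤ k → ∀ p : ℕ → ℝ, Mirror b η T k p →
    ∀ c j : ℤ, j ≠ 0 → |j| ≤ (k : ℤ) ^ U → ∀ (l m : ℕ) (e : Fin r → ℕ), l.Prime → l ^ m ≤ k ^ U → (∀ i, e i ≤ m) →
    ∀ Y : ℝ, 1 ≤ Y →
    ∀ (S : Set ℤ) (K : ℤ → Type) [∀ n, Field (K n)] [∀ n, NumberField (K n)],
    (∀ n ∈ S, |n| ≤ (b : ℤ) ^ (V * k) ∧ Module.finrank ℚ (K n) = 2 ∧ |(discr (K n) : ℝ)| ≤ Y ∧
      ∃ α : K n, IntermediateField.adjoin ℚ {α} = ⊤ ∧ α ^ 2 = ((j * n : ℤ) : K n)) →
    ∑ v ∈ range (b ^ k), p v * (if c + κ * v ∈ S then (numSur (K (c + κ * v)) l e : ℝ) else 0) ≤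
      ((k : ℝ) ^ B * (√Y * max (Y ^ (-(1 / (2 * (l : ℝ) ^ m)))) ((b : ℝ) ^ (-(δ * k))))) ^ r := by
  obtain ⟨δ, hδ, H⟩ := Pool.Agent.U331.CG.sur_cls b (b.factorial * (b ^ 4).factorial) T hb
    (Nat.mul_pos (Nat.factorial_pos _) (Nat.factorial_pos _)) (Pool.Agent.U331.MW.Mirror b η T) (fun _ _ h => h.nonneg) (fun _ _ h => h.sum) (Pool.Agent.U331.CG.mir_dom b hb η hη0 hη1 T) r hr
  refine ⟨δ, hδ, fun κ hκ U V => ?_⟩
  obtain ⟨B, k₀, J⟩ := H κ hκ U V
  exact ⟨B, k₀, fun k hk p hp => J k hk p (conv hp)⟩

end Pool.Agent.Results.MP_0f260b_nt.MirrorMoments
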