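import Pool.Agent.U471.DQ.Cls3
import Pool.Agent.U471.DQ.Type
import Pool.Agent.R345.HM1

/-!
# The `H`-moments of the class groups of the quadratic fields generated by the square roots of integers close to the values
of a real polynomial

From Mathlib: `Polynomial.eval`, `Polynomial.coeff`, `Polynomial.natDegree`: real polynomials; `NumberField`,
`NumberField.discr`, `ClassGroup`, `𝓞 K`: number fields, their discriminants, their class groups and their rings of integers;
`IntermediateField.adjoin`: the generated field; `CommGroup.primaryComponent`: the `p`-part; `IsAlgebraic ℚ`: algebraic numbers.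

Method: Weyl's inequality without losses for all the coefficients at the same time (an inverse theorem, from the starting
files for the top coefficient), a discrete Fejer kernel for the integer parts, uniform distribution in residue classes
with a power saving, high moments: many small primes split; the bound for the torsion by the number of small primes
which are norms is from the starting files (`LogSavingAllDegrees`).
-/

set_option autoImplicit false

open scoped NumberField

namespace Pool.Agent.Results.MP_0f260b_nt.RealPolynomialMoments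

open Finset

/-- The polynomial `f` is not on a major arc, at the scale `N` and with the parameter `R`: for every integer `l ≠ 0` with
`|l| ≤ R` there is `1 ≤ j ≤ d` such that `l` times the coefficient of `f` at `X ^ j` has a distance of more than
`R / N ^ j` from all the integers. -/
def Generic (d N : ℕ) (R : ℝ) (f : Polynomial ℝ) : Prop :=
  ∀ l : ℤ, l ≠ 0 → (|l| : ℝ) ≤ R → ∃ j : ℕ, 1 ≤ j ∧ j ≤ d ∧ ∀ b : ℤ, R / (N : ℝ) ^ j < |(l : ℝ) * f.coeff j - b|

/-- `α` has a finite irrationality exponent. -/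
def FiniteType (α : ℝ) : Prop := ∃ (w : ℕ) (c : ℝ), 0 < c ∧ ∀ q : ℕ, 1 ≤ q → ∀ a : ℤ, c / (q : ℝ) ^ w ≤ |q * α - a|

/-- `#Sur(Cl(K)[p^∞], H)` for the group `H`, the product of the cyclic groups of orders `p ^ e i`, `i < s`. -/
noncomputable def numSur (K : Type) [Field K] [NumberField K] (p : ℕ) {s : ℕ} (e : Fin s → ℕ) : ℕ :=
  Nat.card {φ : CommGroup.primaryComponent (ClassGroup (𝓞 K)) p →* (∀ i : Fin s, Multiplicative (ZMod (p ^ e i))) //
    Function.Surjective φ}

lemma numSur_le (K : Type) [Field K] [NumberField K] (p : ℕ) (hp : p.Prime) {r : ℕ} (e : Fin r → ℕ) (m : ℕ)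
    (he : ∀ i, e i ≤ m) :
    (numSur K p e : ℝ) ≤ (Nat.card {x : ClassGroup (𝓞 K) // x ^ (p ^ m) = 1} : ℝ) ^ r := by
  have := Pool.Agent.R345.HM.card_sur_le (ClassGroup (𝓞 K)) p hp m r e he
  exact_mod_cast this

/-- **(1)** Let `d, s ≥ 1` be integers. There are `κ > 0` and `C` such that the following holds for all `N, R ≥ 1`, for all real
polynomials `f` of degree at most `d` which are not on a major arc (`Generic`), all primes `p`, all `a`, all groups `H` which are
products of `s` cyclic groups of orders `p ^ e i` with `e i ≤ a`, and all `Y ≥ 1`.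

For every set `S` of integers `0 ≤ m < N`, all integers `z m` with `|z m - f(m)| ≤ R ^ κ` and all quadratic fields
`K m = ℚ(√(z m))` with `|disc (K m)| ≤ Y`, `m ∈ S`: the sum over `m ∈ S` of the numbers of the surjective homomorphisms from the
`p`-part of the class group of `K m` onto `H` is at most
`N (C p ^ (2 a) (1 + log R) ^ 4 (1 + log Y) ^ 5 Y ^ (1 / 2) (Y ^ (- 1 / (2 p ^ a)) + R ^ (- κ))) ^ s`.

**(2)** If a nonconstant coefficient of `f` has a finite irrationality exponent, then (1) applies with `R = N ^ β`, for some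
`β > 0` and all large `N`. **(3)** This includes irrational algebraic coefficients. -/
theorem result :
    (∀ d s : ℕ, 1 ≤ d → 1 ≤ s → ∃ κ C : ℝ, 0 < κ ∧ 0 < C ∧
      ∀ (N : ℕ) (R : ℝ) (f : Polynomial ℝ), 1 ≤ N → 1 ≤ R → f.natDegree ≤ d → Generic d N R f →
      ∀ (p a : ℕ) (e : Fin s → ℕ), p.Prime → (∀ i, e i ≤ a) → ∀ Y : ℝ, 1 ≤ Y → ∀ S : Finset ℕ, (∀ m ∈ S, m < N) →
      ∀ (z : ℕ → ℤ) (K : ℕ → Type) [∀ m, Field (K m)] [∀ m, NumberField (K m)],
      (∀ m ∈ S, |(z m : ℝ) - f.eval (m : ℝ)| ≤ R ^ κ ∧ Module.finrank ℚ (K m) = 2 ∧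
        |(NumberField.discr (K m) : ℝ)| ≤ Y ∧ ∃ α : K m, IntermediateField.adjoin ℚ {α} = ⊤ ∧ α ^ 2 = ((z m : ℤ) : K m)) →
      ∑ m ∈ S, (numSur (K m) p e : ℝ) ≤
        N * (C * p ^ (2 * a) * (1 + Real.log R) ^ 4 * (1 + Real.log Y) ^ 5 *
          (√Y * (Y ^ (-(1 / (2 * (p : ℝ) ^ a))) + R ^ (-κ)))) ^ s) ∧
    (∀ (d : ℕ) (f : Polynomial ℝ), (∃ j, 1 ≤ j ∧ j ≤ d ∧ FiniteType (f.coeff j)) →
      ∃ β : ℝ, 0 < β ∧ ∃ N₀ : ℕ, ∀ N : ℕ, N₀ ≤ N → Generic d N ((N : ℝ) ^ β) f) ∧
    (∀ α : ℝ, Irrational α → IsAlgebraic ℚ α → FiniteType α) := by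
  classical
  refine ⟨?_, ?_, fun α h h' => Pool.Agent.U471.DQ.finType_alg h h'⟩
  · intro d s hd hs
    obtain ⟨κ, C, h1, _, h3, H⟩ := Pool.Agent.U471.DQ.near_moment 0 d 2 s hd le_rfl hs
    refine ⟨κ, C, h1, by linarith, ?_⟩
    intro N R f hN hR hf hgen p a e hp he Y hY S hS z K _ _ hK
    have hgen' : Pool.Agent.U471.DQ.Gen d N R (fun _ : Fin 1 => f) := by
      intro l hl hlR
      have hl0 : l 0 ≠ 0 := by
        intro h0
        apply hl
        funext i
        have hi : i = 0 := Subsingleton.elim _ _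
        subst hi
        exact h0
      obtain ⟨j, h4, h5, h6⟩ := hgen (l 0) hl0 (hlR 0)
      refine ⟨j, h4, h5, fun b => ?_⟩
      rw [Fin.sum_univ_one]
      exact h6 b
    have h := H N R (fun _ => f) hN hR (fun _ => hf) hgen' (fun _ => 0) (p ^ a) (Nat.one_le_pow _ _ hp.pos) Y hY S
      (fun m hm => mem_range.2 (hS m hm)) (fun m _ => z m) (fun _ _ => 0) K (by
        intro m hm
        obtain ⟨h4, h5, h6, α, h7, h8⟩ := hK m hm
        refine ⟨fun _ => h4, fun i => ?_, ⟨h5, α, h7, ?_⟩, h6⟩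
        · have : 0 ≤ R ^ κ := by positivity
          simpa using this
        · unfold Pool.Agent.U471.DQ.Mon Pool.Agent.U471.DQ.cof
          simp only [map_zero, add_zero, Polynomial.C_0, zero_mul, sum_const_zero, map_pow, Polynomial.aeval_X]
          exact h8)
    have e1 : ((2 * (2 - 1) * p ^ a : ℕ) : ℝ) = 2 * (p : ℝ) ^ a := by push_cast; ring
    have e2 : ((p ^ a : ℕ) : ℝ) ^ 2 = (p : ℝ) ^ (2 * a) := by push_cast; rw [← pow_mul, mul_comm a 2]
    rw [e1, e2] at h
    refine le_trans (sum_le_sum fun m _ => ?_) h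
    exact numSur_le (K m) p hp e a he
  · intro d f h
    obtain ⟨j, h1, h2, h3⟩ := h
    obtain ⟨β, h4, _, N₀, h6⟩ := Pool.Agent.U471.DQ.gen_of_type d (fun _ : Fin 1 => f) (fun i => ⟨j, h1, h2, h3, fun i' hi' =>
      absurd (Subsingleton.elim _ _) hi'⟩)
    refine ⟨β, h4, N₀, fun N hN l hl hlR => ?_⟩
    obtain ⟨j, h7, h8, h9⟩ := h6 N hN (fun _ => l) (by
      intro h0
      apply hl
      exact congrFun h0 0) (fun _ => hlR)
    refine ⟨j, h7, h8, fun b => ?_⟩
    have := h9 b
    rwa [Fin.sum_univ_one] at this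

end Pool.Agent.Results.MP_0f260b_nt.RealPolynomialMoments
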