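import Pool.Agent.U916.GQ.Exp

/-!
# MP_0f260b_nt: the torsion of the class groups of almost all imaginary quadratic fields, uniformly in
the order

Imaginary quadratic fields `K` of discriminant `D`. Part 1: if `N ≥ 1000` and
`1000 N ^ (2/3) (k + 1) log log X ≤ log X`, then, outside a set of at most
`X ^ (1 - 1 / (1000 N ^ (2/3) (k + 1)))` discriminants in `X < -D ≤ 2 X`, the subgroups
`Cl(K)[2 ^ j l]`, `j ≤ k`, `l ≤ N` odd, have index at least `X ^ (1 / (1000 N ^ (2/3)))` in `Cl(K)`.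
Part 2: for all but at most `X / (log X) ^ C` discriminants all the subgroups `Cl(K)[n]`,
`n ≤ (log X / (4000 C (log log X) ^ 2)) ^ (3/2)`, have index at least `exp (C (log log X) ^ 2)`;
in particular the exponent of `Cl(K)` is larger than `(log X / (4000 C (log log X) ^ 2)) ^ (3/2)`.

Proof. Small split primes `p`, `q` whose classes have the same `l`-th power (`l` odd) give a
representation `x ^ 2 + |D| y ^ 2 = n (p q) ^ l`, `n ∈ {1, 4}`, `x`, `y` coprime. The determinant method with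
respect to the small primes `p`, `q` bounds the number of the `D` for which some integer `M n ≤ X ^ A`, not a
square, with a small `n` and a small radical of `M` is represented in this way by
`X ^ (1 - c / A ^ 2)`; for all other `D` the classes of the small split primes lie in distinct cosets of
`Cl(K)[l]`. Even orders: `|Cl(K)[2 l]| ≤ |Cl(K)[2]| |Cl(K)[l]|` and genus theory.
-/

set_option autoImplicit false

namespace Pool.Agent.Results.MP_0f260b_nt.UniformTorsion

open NumberField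

theorem result :
    (∃ X₀ : ℝ, ∀ X : ℝ, X₀ ≤ X → ∀ N : ℝ, 1000 ≤ N → ∀ k : ℕ,
      1000 * N ^ ((2 : ℝ) / 3) * (k + 1) * Real.log (Real.log X) ≤ Real.log X →
      ∃ E : Finset ℤ, (E.card : ℝ) ≤ X ^ (1 - 1 / (1000 * N ^ ((2 : ℝ) / 3) * (k + 1))) ∧
      ∀ (K : Type) [Field K] [NumberField K], Module.finrank ℚ K = 2 →
        X < -(discr K : ℝ) → -(discr K : ℝ) ≤ 2 * X → discr K ∉ E →
        ∀ j l : ℕ, j ≤ k → Odd l → (l : ℝ) ≤ N →
          X ^ (1 / (1000 * N ^ ((2 : ℝ) / 3))) *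
            (Nat.card {c : ClassGroup (𝓞 K) // c ^ (2 ^ j * l) = 1} : ℝ) ≤
              Nat.card (ClassGroup (𝓞 K))) ∧
    (∀ C : ℝ, 1 ≤ C → ∃ X₀ : ℝ, ∀ X : ℝ, X₀ ≤ X →
      ∃ E : Finset ℤ, (E.card : ℝ) ≤ X / Real.log X ^ C ∧
      ∀ (K : Type) [Field K] [NumberField K], Module.finrank ℚ K = 2 →
        X < -(discr K : ℝ) → -(discr K : ℝ) ≤ 2 * X → discr K ∉ E →
        ∀ n : ℕ, 1 ≤ n →
          (n : ℝ) ≤ (Real.log X / (4000 * C * Real.log (Real.log X) ^ 2)) ^ ((3 : ℝ) / 2) →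
          Real.exp (C * Real.log (Real.log X) ^ 2) *
            (Nat.card {c : ClassGroup (𝓞 K) // c ^ n = 1} : ℝ) ≤ Nat.card (ClassGroup (𝓞 K))) :=
  ⟨Pool.Agent.U916.GQ.all, Pool.Agent.U916.GQ.expo⟩

end Pool.Agent.Results.MP_0f260b_nt.UniformTorsion
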